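import Pool.Agent.N566.VV.Defs

/-!
# VV/4: the value of a state model is an invariant
-/

set_option autoImplicit false

namespace Pool.Agent.N693.VV

open Pool.Agent.N566.VV
open Pool.Agent.H835R2.Knot

section

variable {ι : Type} [Fintype ι] [DecidableEq ι]

theorem act_dir_congr (p : Piece) {A B : Front} (h : A.dir = B.dir) :
    (p.act A).dir = (p.act B).dir := by
  cases p <;> simp only [Piece.act, h]

theorem run_dir_congr (w : Word) {A B : Front} (h : A.dir = B.dir) :
    (run w A).dir = (run w B).dir := by
  induction w generalizing A B with
  | nil => exact h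
  | cons p w ih => exact ih (act_dir_congr p h)

theorem opD_congr (T : Dat ι) (w : Word) {A B : Front} (h : A.dir = B.dir) (f : F ι) :
    opD T w A f = opD T w B f := by
  induction w generalizing A B with
  | nil => rfl
  | cons p w ih =>
    show opP T p A.dir (opD T w (p.act A) f) = opP T p B.dir (opD T w (p.act B) f)
    rw [h, ih (act_dir_congr p h)]

theorem opD_append (T : Dat ι) (u w : Word) (A : Front) (f : F ι) :
    opD T (u ++ w) A f = opD T u A (opD T w (run u A) f) := by
  induction u generalizing A with
  | nil => rfl
  | cons p u ih =>
    show opP T p A.dir (opD T (u ++ w) (p.act A) f) =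
      opP T p A.dir (opD T u (p.act A) (opD T w (run u (p.act A)) f))
    rw [ih]

theorem run_append (u w : Word) (A : Front) : run (u ++ w) A = run w (run u A) := by
  induction u generalizing A with
  | nil => rfl
  | cons p u ih => exact ih _

theorem fits_append {u w : Word} {A : Front} (h : Fits (u ++ w) A) :
    Fits u A ∧ Fits w (run u A) := by
  induction u generalizing A with
  | nil => exact ⟨trivial, h⟩
  | cons p u ih =>
    obtain ⟨h1, h2⟩ := h
    obtain ⟨h3, h4⟩ := ih h2
    exact ⟨⟨h1, h3⟩, h4⟩

/-! ### directions -/

theorem birth_dir (i : ℕ) (b : Bool) (A : Front) (p : ℕ) : ((Piece.birth i b).act A).dir p =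
    if p < i then A.dir p else if p = i then b else if p = i + 1 then !b else A.dir (p - 2) := rfl

theorem death_dir (i : ℕ) (A : Front) (p : ℕ) : ((Piece.death i).act A).dir p =
    A.dir (if p < i then p else p + 2) := rfl

theorem pos_dir (i : ℕ) (A : Front) (p : ℕ) : ((Piece.pos i).act A).dir p =
    A.dir (if p = i then i + 1 else if p = i + 1 then i else p) := rfl

theorem neg_dir (i : ℕ) (A : Front) (p : ℕ) : ((Piece.neg i).act A).dir p =
    A.dir (if p = i then i + 1 else if p = i + 1 then i else p) := rfl

theorem zig1 {i : ℕ} {b : Bool} {A : Front} (hl : Fits [Piece.birth i b, Piece.death (i + 1)] A) :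
    A.dir i = b := by
  have h4 := hl.2.1.2
  rw [birth_dir, birth_dir, if_neg (by omega), if_neg (by omega), if_neg (by omega),
    if_neg (by omega), if_neg (by omega), if_pos rfl] at h4
  simpa using h4

theorem zig2 {i : ℕ} {b : Bool} {A : Front} (hl : Fits [Piece.birth (i + 1) b, Piece.death i] A) :
    A.dir i = !b := by
  have h4 := hl.2.1.2
  rw [birth_dir, birth_dir, if_neg (by omega), if_pos rfl, if_pos (by omega)] at h4
  rw [h4]; simp

theorem sd1 {i : ℕ} {A : Front} {B : Front} (hB : ∀ p, B.dir p =
    A.dir (if p = i + 1 then i + 1 + 1 else if p = i + 1 + 1 then i + 1 else p))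
    (h4 : B.dir (i + 1) = !B.dir i) : A.dir (i + 2) = !A.dir i := by
  rw [hB, hB, if_pos rfl, if_neg (by omega), if_neg (by omega)] at h4
  exact h4

theorem fd1 {i : ℕ} {A : Front} {B : Front} (hB : ∀ p, B.dir p =
    A.dir (if p = i then i + 1 else if p = i + 1 then i else p))
    (h4 : B.dir (i + 1) = !B.dir i) : A.dir (i + 1) = !A.dir i := by
  rw [hB, hB, if_neg (by omega), if_pos rfl, if_pos rfl] at h4
  rw [h4]; simp

set_option maxHeartbeats 4000000 in
theorem move_dir {l r : Word} (h : Move l r) (A : Front) (hl : Fits l A) :
    (run l A).dir = (run r A).dir := by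
  funext k
  cases h with
  | exchange p q h =>
    cases p with
    | birth i b =>
      cases q with
      | birth j b' =>
        have h : i ≤ j := h
        show ((Piece.birth (j + 2) b').act ((Piece.birth i b).act A)).dir k =
          ((Piece.birth i b).act ((Piece.birth j b').act A)).dir k
        simp only [birth_dir]
        split_ifs <;> first | rfl | omega | (congr 1; omega)
      | death j =>
        have h : i ≤ j := h
        show ((Piece.death (j + 2)).act ((Piece.birth i b).act A)).dir k =
          ((Piece.birth i b).act ((Piece.death j).act A)).dir k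
        simp only [birth_dir, death_dir]
        split_ifs <;> first | rfl | omega | (congr 1; omega)
      | pos j =>
        have h : i ≤ j := h
        show ((Piece.pos (j + 2)).act ((Piece.birth i b).act A)).dir k =
          ((Piece.birth i b).act ((Piece.pos j).act A)).dir k
        simp only [birth_dir, pos_dir]
        split_ifs <;> first | rfl | omega | (congr 1; omega)
      | neg j =>
        have h : i ≤ j := h
        show ((Piece.pos (j + 2)).act ((Piece.birth i b).act A)).dir k =
          ((Piece.birth i b).act ((Piece.pos j).act A)).dir k
        simp only [birth_dir, pos_dir]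
        split_ifs <;> first | rfl | omega | (congr 1; omega)
    | death i =>
      cases q with
      | birth j b' =>
        have h : i + 2 ≤ j := h
        show ((Piece.birth (j - 2) b').act ((Piece.death i).act A)).dir k =
          ((Piece.death i).act ((Piece.birth j b').act A)).dir k
        simp only [birth_dir, death_dir]
        split_ifs <;> first | rfl | omega | (congr 1; omega)
      | death j =>
        have h : i + 2 ≤ j := h
        show ((Piece.death (j - 2)).act ((Piece.death i).act A)).dir k =
          ((Piece.death i).act ((Piece.death j).act A)).dir k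
        simp only [death_dir]
        split_ifs <;> first | rfl | omega | (congr 1; omega)
      | pos j =>
        have h : i + 2 ≤ j := h
        show ((Piece.pos (j - 2)).act ((Piece.death i).act A)).dir k =
          ((Piece.death i).act ((Piece.pos j).act A)).dir k
        simp only [death_dir, pos_dir]
        split_ifs <;> first | rfl | omega | (congr 1; omega)
      | neg j =>
        have h : i + 2 ≤ j := h
        show ((Piece.pos (j - 2)).act ((Piece.death i).act A)).dir k =
          ((Piece.death i).act ((Piece.pos j).act A)).dir k
        simp only [death_dir, pos_dir]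
        split_ifs <;> first | rfl | omega | (congr 1; omega)
    | pos i =>
      cases q with
      | birth j b' =>
        have h : i + 2 ≤ j := h
        show ((Piece.birth j b').act ((Piece.pos i).act A)).dir k =
          ((Piece.pos i).act ((Piece.birth j b').act A)).dir k
        simp only [birth_dir, pos_dir]
        split_ifs <;> first | rfl | omega | (congr 1; omega)
      | death j =>
        have h : i + 2 ≤ j := h
        show ((Piece.death j).act ((Piece.pos i).act A)).dir k =
          ((Piece.pos i).act ((Piece.death j).act A)).dir k
        simp only [death_dir, pos_dir]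
        split_ifs <;> first | rfl | omega | (congr 1; omega)
      | pos j =>
        have h : i + 2 ≤ j := h
        show ((Piece.pos j).act ((Piece.pos i).act A)).dir k =
          ((Piece.pos i).act ((Piece.pos j).act A)).dir k
        simp only [pos_dir]
        split_ifs <;> first | rfl | omega | (congr 1; omega)
      | neg j =>
        have h : i + 2 ≤ j := h
        show ((Piece.pos j).act ((Piece.pos i).act A)).dir k =
          ((Piece.pos i).act ((Piece.pos j).act A)).dir k
        simp only [pos_dir]
        split_ifs <;> first | rfl | omega | (congr 1; omega)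
    | neg i =>
      cases q with
      | birth j b' =>
        have h : i + 2 ≤ j := h
        show ((Piece.birth j b').act ((Piece.pos i).act A)).dir k =
          ((Piece.pos i).act ((Piece.birth j b').act A)).dir k
        simp only [birth_dir, pos_dir]
        split_ifs <;> first | rfl | omega | (congr 1; omega)
      | death j =>
        have h : i + 2 ≤ j := h
        show ((Piece.death j).act ((Piece.pos i).act A)).dir k =
          ((Piece.pos i).act ((Piece.death j).act A)).dir k
        simp only [death_dir, pos_dir]
        split_ifs <;> first | rfl | omega | (congr 1; omega)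
      | pos j =>
        have h : i + 2 ≤ j := h
        show ((Piece.pos j).act ((Piece.pos i).act A)).dir k =
          ((Piece.pos i).act ((Piece.pos j).act A)).dir k
        simp only [pos_dir]
        split_ifs <;> first | rfl | omega | (congr 1; omega)
      | neg j =>
        have h : i + 2 ≤ j := h
        show ((Piece.pos j).act ((Piece.pos i).act A)).dir k =
          ((Piece.pos i).act ((Piece.pos j).act A)).dir k
        simp only [pos_dir]
        split_ifs <;> first | rfl | omega | (congr 1; omega)
  | zigzag₁ i b =>
    have h2 := zig1 hl
    show ((Piece.death (i + 1)).act ((Piece.birth i b).act A)).dir k = A.dir k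
    rw [death_dir]
    by_cases h3 : k < i
    · rw [if_pos (by omega), birth_dir, if_pos h3]
    · by_cases h4 : k = i
      · rw [if_pos (by omega), birth_dir, if_neg (by omega), if_pos h4, h4, h2]
      · rw [if_neg (by omega), birth_dir, if_neg (by omega), if_neg (by omega),
          if_neg (by omega)]
        rfl
  | zigzag₂ i b =>
    have h2 := zig2 hl
    show ((Piece.death i).act ((Piece.birth (i + 1) b).act A)).dir k = A.dir k
    rw [death_dir]
    by_cases h3 : k < i
    · rw [if_pos (by omega), birth_dir, if_pos (by omega)]
    · by_cases h4 : k = i
      · rw [if_neg (by omega), birth_dir, if_neg (by omega), if_neg (by omega),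
          if_pos (by omega), h4, h2]
      · rw [if_neg (by omega), birth_dir, if_neg (by omega), if_neg (by omega),
          if_neg (by omega)]
        rfl
  | slideBirth₁ i b =>
    simp only [run, birth_dir, death_dir, pos_dir, neg_dir]
    split_ifs <;> first | rfl | omega | (congr 1; omega)
  | slideBirth₂ i b =>
    simp only [run, birth_dir, death_dir, pos_dir, neg_dir]
    split_ifs <;> first | rfl | omega | (congr 1; omega)
  | slideDeath₁ i =>
    simp only [run, birth_dir, death_dir, pos_dir, neg_dir]
    split_ifs <;> first | rfl | omega | (congr 1; omega)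
  | slideDeath₂ i =>
    simp only [run, birth_dir, death_dir, pos_dir, neg_dir]
    split_ifs <;> first | rfl | omega | (congr 1; omega)
  | firstBirthPos i b =>
    simp only [run, birth_dir, death_dir, pos_dir, neg_dir]
    split_ifs <;> first | rfl | omega | (congr 1; omega) | simp
  | firstBirthNeg i b =>
    simp only [run, birth_dir, death_dir, pos_dir, neg_dir]
    split_ifs <;> first | rfl | omega | (congr 1; omega) | simp
  | firstDeathPos i =>
    simp only [run, birth_dir, death_dir, pos_dir, neg_dir]
    split_ifs <;> first | rfl | omega | (congr 1; omega)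
  | firstDeathNeg i =>
    simp only [run, birth_dir, death_dir, pos_dir, neg_dir]
    split_ifs <;> first | rfl | omega | (congr 1; omega)
  | second₁ i =>
    simp only [run, birth_dir, death_dir, pos_dir, neg_dir]
    split_ifs <;> first | rfl | omega | (congr 1; omega)
  | second₂ i =>
    simp only [run, birth_dir, death_dir, pos_dir, neg_dir]
    split_ifs <;> first | rfl | omega | (congr 1; omega)
  | third i =>
    simp only [run, birth_dir, death_dir, pos_dir, neg_dir]
    split_ifs <;> first | rfl | omega | (congr 1; omega)

theorem move_op {T : Dat ι} (hT : T.Ok) (h1 : S_EX) (h2 : S_ZS) (h3 : S_RM) {l r : Word}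
    (h : Move l r) (A : Front) (hl : Fits l A) (f : F ι) : opD T l A f = opD T r A f := by
  cases h with
  | exchange p q h => exact h1 ι T p q h A f
  | zigzag₁ i b => exact (h2 ι T hT i b A f).1 (zig1 hl)
  | zigzag₂ i b => exact (h2 ι T hT i b A f).2.1 (zig2 hl)
  | slideBirth₁ i b => exact (h2 ι T hT i b A f).2.2.1
  | slideBirth₂ i b => exact (h2 ι T hT i b A f).2.2.2.1
  | slideDeath₁ i =>
    exact ((h2 ι T hT i true A f).2.2.2.2 (sd1 (pos_dir (i + 1) A) hl.2.1.2)).1
  | slideDeath₂ i =>
    exact ((h2 ι T hT i true A f).2.2.2.2 (sd1 (neg_dir (i + 1) A) hl.2.1.2)).2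
  | firstBirthPos i b => exact (h3 ι T hT i b A f).1
  | firstBirthNeg i b => exact (h3 ι T hT i b A f).2.1
  | firstDeathPos i =>
    exact ((h3 ι T hT i true A f).2.2.1 (fd1 (pos_dir i A) hl.2.1.2)).1
  | firstDeathNeg i =>
    exact ((h3 ι T hT i true A f).2.2.1 (fd1 (neg_dir i A) hl.2.1.2)).2
  | second₁ i => exact (h3 ι T hT i true A f).2.2.2.1
  | second₂ i => exact (h3 ι T hT i true A f).2.2.2.2.1
  | third i => exact (h3 ι T hT i true A f).2.2.2.2.2

end

/-- VV/4: the value is an invariant -/
theorem s_inv (h1 : S_EX) (h2 : S_ZS) (h3 : S_RM) : Pool.Agent.N566.VV.S_INV := by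
  intro ι _ _ T hT D E hDE σ
  unfold Isotopic at hDE
  induction hDE with
  | rel D E h =>
    cases h with
    | mk x l r y hm hD hE =>
      have hf := fits_append hD.1
      have hf2 := fits_append hf.1
      unfold val
      rw [opD_append, opD_append, opD_append, opD_append, run_append, run_append,
        move_op hT h1 h2 h3 hm _ hf2.2]
      congr 2
      exact opD_congr T y (move_dir hm _ hf2.2) _
  | refl D => rfl
  | symm D E _ ih => exact ih.symm
  | trans D E G _ _ ih1 ih2 => exact ih1.trans ih2

end Pool.Agent.N693.VV
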